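import Pool.Agent.Helper73.SM.Goals

/-!
# Project SM, packet B
-/

set_option autoImplicit false

namespace Pool.Agent.Helper14.SM

open Finset
open Pool.Agent.Helper73.SM

theorem log_sq_le (x : ℝ) (hx : (6400 : ℝ) ^ (40 : ℕ) ≤ x) :
    Real.log x ^ 2 ≤ x ^ (1 / 20 : ℝ) := by
  have h0 : (0 : ℝ) < (6400 : ℝ) ^ (40 : ℕ) := by positivity
  have hx0 : 0 < x := lt_of_lt_of_le h0 hx
  have hx1 : 1 ≤ x := le_trans (one_le_pow₀ (by norm_num)) hx
  have h1 : Real.log x ≤ x ^ (1 / 80 : ℝ) / (1 / 80) :=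
    Real.log_le_rpow_div hx0.le (by norm_num)
  have h2 : 0 ≤ Real.log x := Real.log_nonneg hx1
  have h3 : (6400 : ℝ) ≤ x ^ (1 / 40 : ℝ) := by
    calc (6400 : ℝ) = ((6400 : ℝ) ^ (40 : ℕ)) ^ (1 / 40 : ℝ) := by
          rw [← Real.rpow_natCast, ← Real.rpow_mul (by norm_num)]
          norm_num
      _ ≤ x ^ (1 / 40 : ℝ) := Real.rpow_le_rpow h0.le hx (by norm_num)
  have h4 : x ^ (1 / 80 : ℝ) * x ^ (1 / 80 : ℝ) = x ^ (1 / 40 : ℝ) := by
    rw [← Real.rpow_add hx0]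
    norm_num
  have h5 : x ^ (1 / 40 : ℝ) * x ^ (1 / 40 : ℝ) = x ^ (1 / 20 : ℝ) := by
    rw [← Real.rpow_add hx0]
    norm_num
  have h6 : 0 ≤ x ^ (1 / 40 : ℝ) := Real.rpow_nonneg hx0.le _
  have h7 : Real.log x ≤ 80 * x ^ (1 / 80 : ℝ) := by
    rw [div_eq_mul_inv] at h1
    norm_num at h1
    linarith
  calc Real.log x ^ 2 ≤ (80 * x ^ (1 / 80 : ℝ)) ^ 2 := pow_le_pow_left₀ h2 h7 2
    _ = 6400 * (x ^ (1 / 80 : ℝ) * x ^ (1 / 80 : ℝ)) := by ring
    _ = 6400 * x ^ (1 / 40 : ℝ) := by rw [h4]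
    _ ≤ x ^ (1 / 40 : ℝ) * x ^ (1 / 40 : ℝ) := mul_le_mul_of_nonneg_right h3 h6
    _ = x ^ (1 / 20 : ℝ) := h5

theorem goalB (hG : StmtG) (hPD : StmtPD) : StmtB := by
  classical
  intro ε hε
  obtain ⟨C, H₀, hC, hG'⟩ := hG ε hε
  refine ⟨C, hC, ?_⟩
  intro k hk
  obtain ⟨B, N₁, hB, hN₁, hP⟩ := hPD k hk
  refine ⟨20 * B, 1 / (20 * B), max N₁ (max ⌈Real.exp (100 * B)⌉₊ (max ⌈H₀⌉₊ (6400 ^ 40))),
    by positivity, ?_⟩
  intro N H hN hNH c Q hc hQ
  have hN1 : N₁ ≤ N := le_trans (le_max_left _ _) hN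
  have hN2 : Real.exp (100 * B) ≤ N := by
    refine le_trans (Nat.le_ceil _) ?_
    exact_mod_cast le_trans (le_trans (le_max_left _ _) (le_max_right _ _)) hN
  have hN3 : H₀ ≤ N := by
    refine le_trans (Nat.le_ceil _) ?_
    exact_mod_cast le_trans (le_trans (le_max_left _ _)
      (le_trans (le_max_right _ _) (le_max_right _ _))) hN
  have hN4 : (6400 : ℝ) ^ (40 : ℕ) ≤ N := by
    have h1 : 6400 ^ 40 ≤ N := le_trans (le_trans (le_max_right _ _)
      (le_trans (le_max_right _ _) (le_max_right _ _))) hN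
    exact_mod_cast h1
  have hNr : (1 : ℝ) ≤ N := le_trans (one_le_pow₀ (by norm_num)) hN4
  have hN0 : (0 : ℝ) < N := by linarith
  have hHN : (N : ℝ) ≤ H := by
    refine le_trans ?_ hNH
    calc (N : ℝ) = (N : ℝ) ^ (1 : ℝ) := (Real.rpow_one _).symm
      _ ≤ (N : ℝ) ^ (20 * B) := Real.rpow_le_rpow_of_exponent_le hNr (by linarith)
  have hH0 : (0 : ℝ) < H := lt_of_lt_of_le hN0 hHN
  have hH1 : (1 : ℝ) ≤ H := le_trans hNr hHN
  have hlogN : 100 * B ≤ Real.log N := by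
    rw [Real.le_log_iff_exp_le hN0]
    exact hN2
  have hlogN0 : 0 < Real.log N := by linarith
  have hlogHN : Real.log N ≤ Real.log H := Real.log_le_log hN0 hHN
  obtain ⟨hirr, habs, hlow⟩ := hP N hN1
  have hδ : B / Real.log N ≤ 1 / 100 := by
    rw [div_le_div_iff₀ hlogN0 (by norm_num)]
    linarith
  have hHpow : (N : ℝ) ^ B ≤ (H : ℝ) ^ (1 / 20 : ℝ) := by
    calc (N : ℝ) ^ B = ((N : ℝ) ^ (20 * B)) ^ (1 / 20 : ℝ) := by
          rw [← Real.rpow_mul hN0.le]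
          congr 1
          ring
      _ ≤ (H : ℝ) ^ (1 / 20 : ℝ) :=
          Real.rpow_le_rpow (Real.rpow_nonneg hN0.le _) hNH (by norm_num)
  have hBB : B ≠ 0 := by linarith
  refine hG' ((1 + 1 / (N : ℝ)) ^ (1 / (k : ℝ))) hirr habs (B / Real.log N) ((N : ℝ) ^ (-B))
    (by positivity) hδ (Real.rpow_pos_of_pos hN0 _) hlow H
    (Real.exp (1 / (20 * B) * Real.log H * Real.log N)) (le_trans hN3 hHN) ?_ ?_ ?_ ?_ c Q hc hQ
  · apply Real.one_le_exp
    have : 0 ≤ Real.log H := by linarith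
    positivity
  · apply le_of_eq
    rw [← Real.exp_mul, Real.rpow_def_of_pos hH0]
    congr 1
    field_simp
  · rw [Real.rpow_neg hN0.le]
    have h1 : 0 < (N : ℝ) ^ B := Real.rpow_pos_of_pos hN0 _
    rw [inv_mul_eq_div, one_le_div h1]
    exact hHpow
  · rw [Real.log_exp]
    refine le_trans ?_ (log_sq_le H (le_trans hN4 hHN))
    have h1 : 1 / (20 * B) ≤ 1 := by
      rw [div_le_one (by positivity)]
      linarith
    have h2 : 0 ≤ Real.log H := by linarith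
    calc 1 / (20 * B) * Real.log H * Real.log N ≤ 1 * Real.log H * Real.log H := by
          apply mul_le_mul _ hlogHN hlogN0.le (by positivity)
          exact mul_le_mul_of_nonneg_right h1 h2
      _ = Real.log H ^ 2 := by ring

end Pool.Agent.Helper14.SM
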