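import Pool.Agent.Helper73.SM.GoalsK

/-!
# Project KR (MP_c307ca_nt), packet KPP: the size of the product
-/

set_option autoImplicit false

namespace Pool.Agent.Helper14.SM

open Finset Pool.Agent.Helper73.SM

/-- **KPP** -/
theorem goalKPP : StmtKPP := by
  classical
  intro k m n M N X hk hN hX hpow
  have h1 : ∏ p ∈ RK k m n M, p ≤ primorial (k * n + k) := by
    unfold primorial RK
    apply prod_le_prod_of_subset_of_one_le'
    · intro p hp
      rw [mem_filter, mem_Ioc] at hp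
      rw [mem_filter, mem_range]
      exact ⟨by omega, hp.2.1⟩
    · intro p hp _
      exact (mem_filter.1 hp).2.one_lt.le
  refine (h1.trans (primorial_le_four_pow (k * n + k))).trans ?_
  have h2 : (8 * k ^ 2 * 4 ^ k) ^ (2 * n) ≤ N := by exact_mod_cast hpow
  have h3 : ((4 : ℕ) ^ k) ^ (2 * n) ≤ 2 * X := by
    refine le_trans (Nat.pow_le_pow_left ?_ _) (h2.trans hN)
    have h4 : 1 ≤ 8 * k ^ 2 := by
      have : 0 < 8 * k ^ 2 := by positivity
      exact this
    exact Nat.le_mul_of_pos_left _ h4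
  have h5 : (4 : ℕ) ^ (k * n + k) * 4 ^ (k * n + k) = 16 ^ k * ((4 : ℕ) ^ k) ^ (2 * n) := by
    have e : (16 : ℕ) = 4 ^ 2 := by norm_num
    rw [e, ← pow_mul, ← pow_mul, ← pow_add, ← pow_add]
    congr 1
    ring
  have h6 : (4 : ℕ) ^ (k * n + k) * 4 ^ (k * n + k) ≤ X * X := by
    calc (4 : ℕ) ^ (k * n + k) * 4 ^ (k * n + k) = 16 ^ k * ((4 : ℕ) ^ k) ^ (2 * n) := h5
      _ ≤ 16 ^ k * (2 * X) := Nat.mul_le_mul_left _ h3
      _ = 2 * 16 ^ k * X := by ring
      _ ≤ X * X := Nat.mul_le_mul_right _ hX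
  exact Nat.mul_self_le_mul_self_iff.1 h6

end Pool.Agent.Helper14.SM
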