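import Pool.Agent.Helper73.SM.GoalsK

/-!
# Project KR (MP_c307ca_nt), packet KTL: tails
-/

set_option autoImplicit false

namespace Pool.Agent.Helper14.SM

open Finset Pool.Agent.Helper73.SM Filter

theorem ktl_summable (c : ℝ) (hc : 0 < c) :
    Summable (fun n : ℕ => Real.exp (-(c * ((n : ℝ) / Real.log n)))) := by
  have h0 : Summable (fun n : ℕ => 1 / (n : ℝ) ^ 2) :=
    Real.summable_one_div_nat_pow.2 (by norm_num)
  refine Summable.of_norm_bounded_eventually_nat h0 ?_
  have hs : 0 < Real.sqrt (c / 2) := Real.sqrt_pos.2 (by positivity)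
  have h1 := (isLittleO_log_rpow_atTop (by norm_num : (0 : ℝ) < 1 / 2)).bound hs
  have h2 := tendsto_natCast_atTop_atTop (R := ℝ) |>.eventually h1
  filter_upwards [h2, eventually_ge_atTop 2] with n hn hn2
  have hnR : (2 : ℝ) ≤ n := by exact_mod_cast hn2
  have hn0 : (0 : ℝ) < n := by linarith
  have hlog : 0 < Real.log n := Real.log_pos (by linarith)
  have hp : 0 < (n : ℝ) ^ (1 / 2 : ℝ) := Real.rpow_pos_of_pos hn0 _
  rw [Real.norm_of_nonneg hlog.le, Real.norm_of_nonneg hp.le] at hn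
  have hsq : ((n : ℝ) ^ (1 / 2 : ℝ)) ^ 2 = n := by
    rw [← Real.rpow_natCast, ← Real.rpow_mul hn0.le]
    norm_num
  have h3 : Real.log n ^ 2 ≤ c / 2 * n := by
    have h4 : Real.log n ^ 2 ≤ (Real.sqrt (c / 2) * (n : ℝ) ^ (1 / 2 : ℝ)) ^ 2 :=
      pow_le_pow_left₀ hlog.le hn 2
    rwa [mul_pow, hsq, Real.sq_sqrt (by positivity)] at h4
  rw [Real.norm_of_nonneg (Real.exp_pos _).le]
  have h5 : 2 * Real.log n ≤ c * ((n : ℝ) / Real.log n) := by
    rw [← mul_div_assoc, le_div_iff₀ hlog]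
    nlinarith
  have h6 : 1 / (n : ℝ) ^ 2 = Real.exp (-(2 * Real.log n)) := by
    rw [Real.exp_neg, two_mul, Real.exp_add, Real.exp_log hn0, one_div, sq]
  rw [h6]
  exact Real.exp_le_exp.2 (by linarith)

/-- **KTL** -/
theorem goalKTL : StmtKTL := by
  intro c₁ c₃ hc₁ hc₃
  have hS := ktl_summable (c₁ / 2) (by positivity)
  set f : ℕ → ℝ := fun n : ℕ => Real.exp (-(c₁ / 2 * ((n : ℝ) / Real.log n))) with hf
  have hf0 : ∀ n, 0 ≤ f n := fun n => (Real.exp_pos _).le
  have hT : 0 ≤ ∑' n, f n := tsum_nonneg hf0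
  refine ⟨∑' n, f n + 1, c₁ * c₃ / 4, Real.exp (3 + c₃ + 3 / c₃), by linarith, by positivity, ?_, ?_⟩
  · have h1 := Real.add_one_le_exp (3 + c₃ + 3 / c₃)
    have h2 : 0 < 3 / c₃ := by positivity
    linarith
  intro T hT0 n₂
  set L := Real.log T with hL
  have hL1 : 3 + c₃ + 3 / c₃ ≤ L := by
    have := Real.log_le_log (Real.exp_pos _) hT0
    rwa [Real.log_exp] at this
  have hq : 0 < 3 / c₃ := by positivity
  have hL3 : 3 ≤ L := by linarith
  have hLc : c₃ ≤ L := by linarith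
  have hLq : 3 / c₃ ≤ L := by linarith
  have hL0 : 0 < L := by linarith
  have hlogL : 0 < Real.log L := Real.log_pos (by linarith)
  set a := c₃ * L with ha
  have ha3 : 3 ≤ a := by
    rw [div_le_iff₀ hc₃] at hLq
    rw [ha]
    linarith
  have ha0 : 0 < a := by linarith
  have hloga : 0 < Real.log a := Real.log_pos (by linarith)
  have hlogaL : Real.log a ≤ 2 * Real.log L := by
    rw [ha, Real.log_mul hc₃.ne' hL0.ne']
    have := Real.log_le_log hc₃ hLc
    linarith
  have haL : c₃ * L / (2 * Real.log L) ≤ a / Real.log a := by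
    rw [ha]
    exact div_le_div_of_nonneg_left ha0.le hloga hlogaL
  have he3 : Real.exp 1 ≤ 3 := by
    have := Real.exp_one_lt_d9
    linarith
  have hkey : ∀ n : ℕ, a ≤ (n : ℝ) → Real.exp (-(c₁ * ((n : ℝ) / Real.log n))) ≤
      Real.exp (-(c₁ * c₃ / 4 * (L / Real.log L))) * f n := by
    intro n hn
    have hn3 : (3 : ℝ) ≤ n := ha3.trans hn
    have hlogn : 0 < Real.log n := Real.log_pos (by linarith)
    have h1 : Real.log n / n ≤ Real.log a / a :=
      Real.log_div_self_antitoneOn (he3.trans ha3) (he3.trans hn3) hn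
    have h2 : a / Real.log a ≤ n / Real.log n := by
      rw [div_le_div_iff₀ (by linarith) ha0] at h1
      rw [div_le_div_iff₀ hloga hlogn]
      linarith
    have h3 : c₃ * L / (2 * Real.log L) ≤ n / Real.log n := haL.trans h2
    have h4 : c₁ / 2 * (c₃ * L / (2 * Real.log L)) = c₁ * c₃ / 4 * (L / Real.log L) := by
      field_simp
      ring
    have h5 : c₁ * c₃ / 4 * (L / Real.log L) ≤ c₁ / 2 * (n / Real.log n) := by
      rw [← h4]
      exact mul_le_mul_of_nonneg_left h3 (by positivity)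
    rw [hf, ← Real.exp_add]
    apply Real.exp_le_exp.2
    linarith
  calc ∑ n ∈ (range n₂).filter (fun n : ℕ => c₃ * L ≤ (n : ℝ)), Real.exp (-(c₁ * (n / Real.log n)))
      ≤ ∑ n ∈ (range n₂).filter (fun n : ℕ => c₃ * L ≤ (n : ℝ)),
          Real.exp (-(c₁ * c₃ / 4 * (L / Real.log L))) * f n :=
        sum_le_sum fun n hn => hkey n (mem_filter.1 hn).2
    _ = Real.exp (-(c₁ * c₃ / 4 * (L / Real.log L))) *
          ∑ n ∈ (range n₂).filter (fun n : ℕ => c₃ * L ≤ (n : ℝ)), f n := by rw [mul_sum]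
    _ ≤ Real.exp (-(c₁ * c₃ / 4 * (L / Real.log L))) * (∑' n, f n + 1) := by
        apply mul_le_mul_of_nonneg_left _ (Real.exp_pos _).le
        have := hS.sum_le_tsum ((range n₂).filter (fun n : ℕ => c₃ * L ≤ (n : ℝ)))
          (fun i _ => hf0 i)
        linarith
    _ = _ := by ring

end Pool.Agent.Helper14.SM
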